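import Pool.Agent.Helper14.LK.Defs
import Pool.Agent.Helper14.LK.St
import Pool.Agent.Helper48.LK.M_PAR
import Pool.Agent.Helper57.LK.M_NEM
import Pool.Agent.Helper14.LK.M_FLB
import Pool.Agent.Helper89.LK.M_FLO
import Pool.Agent.Helper27.LK.M_PO0
import Pool.Agent.Helper79.LK.M_POI
import Pool.Agent.Helper14.LE.FDefs
import Pool.Agent.Helper14.LE.St
import Pool.Agent.Helper34.LE.M_LAG
import Pool.Agent.Helper34.LE.M_EXL
import Pool.Agent.Helper8.LE.M_IEA
import Pool.Agent.Helper6.LE.M_IET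
import Pool.Agent.Helper64.LE.M_PFL
import Pool.Agent.Helper41.LE.M_SMN
import Pool.Agent.Helper34.LE.M_SUN
import Pool.Agent.Helper36.LE.M_SGO
import Pool.Agent.Helper76.LE.M_CUR
import Pool.Agent.Helper67.LE.M_LGL
import Pool.Agent.Helper87.LE.M_UNA
import Pool.Agent.Helper16.LE.M_CRS
import Pool.Agent.Helper9.LE.M_LFT
import Pool.Agent.Helper14.LE.M_LFF
import Pool.Agent.Helper14.LE.M_PRM
import Pool.Agent.Helper14.LE.M_T0
import Pool.Agent.Helper7.LE.M_NRL
import Pool.Agent.Helper14.LE.M_FIN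

/-!
MP_58b586_gt, Q1 (local Lagrangian knots).  Let `V` be an isotropic linear subspace of `ℝ²ⁿ` of dimension at
least `n - 1`.  Every smooth isotropic `ι : ℝⁿ → ℝ²ⁿ`, standard at infinity, whose projection to `ℝ²ⁿ / V` is
an injective immersion, has as its image the image of `ℝⁿ × 0` under a compactly supported Hamiltonian
isotopy.
-/

set_option autoImplicit false

open Pool.Agent.Helper14.LK Pool.Agent.Helper14.LE
open scoped ContDiff

namespace Pool.Agent.Results.MP_58b586_gt.EmbeddedProjection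

/-- Let `n ≥ 2`, let `V` be an isotropic subspace of `ℝ²ⁿ` of dimension at least `n - 1`, and let
`ι : ℝⁿ → ℝ²ⁿ` be smooth, isotropic, standard at infinity, such that the composition of `ι` with the projection
`ℝ²ⁿ → ℝ²ⁿ / V` is an injective immersion.  Then a compactly supported Hamiltonian isotopy carries `ℝⁿ × 0` onto
the image of `ι`. -/
theorem result : ∀ n : ℕ, 2 ≤ n → ∀ V : Submodule ℝ (WW n), IsoSub V →
    n ≤ Module.finrank ℝ V + 1 → ∀ ι : EE n → WW n, ContDiff ℝ ∞ ι → Isotropic ι → StdInfty ι →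
    ProjImm V ι → ProjInj V ι → HamIsotopic (Plane n) (Set.range ι) := by
  have hPAR := Pool.Agent.Helper48.LK.hPAR
  have hNEM := Pool.Agent.Helper57.LK.hNEM
  have hFLB := Pool.Agent.Helper14.LK.hFLB hNEM
  have hFLO := Pool.Agent.Helper89.LK.hFLO hFLB
  have hPO0 := Pool.Agent.Helper27.LK.hPO0 hPAR
  have hPOI := Pool.Agent.Helper79.LK.hPOI hPO0
  have hLAG := Pool.Agent.Helper34.LE.hLAG
  have hEXL := Pool.Agent.Helper34.LE.hEXL
  have hIEA := Pool.Agent.Helper8.LE.hIEA hLAG hEXL hPOI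
  have hIET := Pool.Agent.Helper6.LE.hIET hIEA hFLO
  have hPFL := Pool.Agent.Helper64.LE.hPFL hFLB
  have hSMN := Pool.Agent.Helper41.LE.hSMN hPFL
  have hSUN := Pool.Agent.Helper34.LE.hSUN hPFL hSMN
  have hSGO := Pool.Agent.Helper36.LE.hSGO hPFL hSMN hSUN
  have hCUR := Pool.Agent.Helper76.LE.hCUR hPAR
  have hLGL := Pool.Agent.Helper67.LE.hLGL hPAR
  have hUNA := Pool.Agent.Helper87.LE.hUNA hPOI
  have hCRS := Pool.Agent.Helper16.LE.hCRS
  have hLFT := Pool.Agent.Helper9.LE.hLFT hPOI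
  have hLFF := Pool.Agent.Helper14.LE.hLFF hLAG hEXL hCRS hLFT
  have hPRM := Pool.Agent.Helper14.LE.hPRM hFLB hPFL hSMN
  have hT0 := Pool.Agent.Helper14.LE.hT0 hIET hPFL hSGO hCUR hLGL hUNA hLFF hPRM
  exact Pool.Agent.Helper14.LE.hFIN Pool.Agent.Helper7.LE.hNRL hT0

end Pool.Agent.Results.MP_58b586_gt.EmbeddedProjection
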