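import Pool.Agent.Helper49.LC.All

/-!
MP_58b586_gt, Q1 (local Lagrangian knots).  For a Lagrangian embedding `ι : ℝⁿ → ℝ²ⁿ`, standard at infinity, `n ≥ 2`, with
image `L`, the following are equivalent: `L` is the image of `ℝⁿ × 0` under a symplectic diffeomorphism of `ℝ²ⁿ` (no
condition at infinity); `L` is a limit of Hamiltonian unknotted knots; `L` is the image of `ℝⁿ × 0` under a compactly
supported homeomorphism which is a uniform limit of Hamiltonian diffeomorphisms; `L` is invertible for the connected sum.
-/

set_option autoImplicit false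

open Pool.Agent.Helper14.LK Pool.Agent.Helper49.LC

namespace Pool.Agent.Results.MP_58b586_gt.HomeoUnknotting

/-- Let `n ≥ 2` and let `ι : ℝⁿ → ℝ²ⁿ` be a Lagrangian embedding, standard at infinity, with image `L`.  Equivalent are:
`L` is the image of `ℝⁿ × 0` under a symplectic diffeomorphism of `ℝ²ⁿ`; `L` is a limit of Hamiltonian unknotted knots;
`L` is the image of `ℝⁿ × 0` under a homeomorphism which is a uniform limit of Hamiltonian diffeomorphisms (and smooth
and symplectic off one point); some connected sum of `L` with a knot is Hamiltonian unknotted. -/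
theorem result : ∀ n : ℕ, 2 ≤ n → ∀ ι : EE n → WW n, Knot ι →
    [SymplUnknotted (Set.range ι), LimitOfUnknots (Set.range ι), HomeoUnknotted (Set.range ι),
      Invertible (Set.range ι)].TFAE :=
  thmA aKNB aEQV aIN1 aIN3 aS2C aH2C aC2I

end Pool.Agent.Results.MP_58b586_gt.HomeoUnknotting
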