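import Pool.Agent.Helper49.LC.All
import Pool.Agent.Helper14.LE.FDefs

/-!
MP_58b586_gt, Q1 (local Lagrangian knots).  If the projection of a Lagrangian embedding `ι : ℝⁿ → ℝ²ⁿ`, standard at
infinity, along one line is an injective immersion, then the image of `ι` is the image of `ℝⁿ × 0` under a symplectic
diffeomorphism of `ℝ²ⁿ`, and under a compactly supported homeomorphism which is a uniform limit of Hamiltonian
diffeomorphisms; its connected sum with some knot is Hamiltonian unknotted.
-/

set_option autoImplicit false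

open Pool.Agent.Helper14.LK Pool.Agent.Helper14.LE Pool.Agent.Helper49.LC
open scoped ContDiff

namespace Pool.Agent.Results.MP_58b586_gt.LineProjection

/-- Let `n ≥ 2`, let `e` be a nonzero vector of `ℝ²ⁿ` and let `ι : ℝⁿ → ℝ²ⁿ` be smooth, isotropic, standard at infinity,
such that the composition of `ι` with the projection `ℝ²ⁿ → ℝ²ⁿ / ℝe` is an injective immersion.  Then the image of `ι`
is unknotted by a symplectic diffeomorphism of `ℝ²ⁿ`, by a limit of Hamiltonian diffeomorphisms, and it is invertible. -/
theorem result : ∀ n : ℕ, 2 ≤ n → ∀ e : WW n, e ≠ 0 → ∀ ι : EE n → WW n, ContDiff ℝ ∞ ι →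
    Isotropic ι → StdInfty ι → ProjImm (Submodule.span ℝ {e}) ι →
    ProjInj (Submodule.span ℝ {e}) ι →
    SymplUnknotted (Set.range ι) ∧ HomeoUnknotted (Set.range ι) ∧ Invertible (Set.range ι) :=
  fun n hn e he ι h1 h2 h3 h4 h5 =>
    thmB aKNB aEQV aIN1 aIN3 aS2C aH2C aC2I aLI2 n hn e he ι h1 h2 h3 h4 h5

end Pool.Agent.Results.MP_58b586_gt.LineProjection
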