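import Pool.Agent.Helper14.LK.Defs
import Pool.Agent.Helper14.LK.St
import Pool.Agent.Helper48.LK.M_PAR
import Pool.Agent.Helper57.LK.M_NEM
import Pool.Agent.Helper14.LK.M_FLB
import Pool.Agent.Helper89.LK.M_FLO
import Pool.Agent.Helper27.LK.M_PO0
import Pool.Agent.Helper79.LK.M_POI
import Pool.Agent.Helper98.LK.M_BIJ
import Pool.Agent.Helper42.LK.M_VEF
import Pool.Agent.Helper9.LK.M_HAM
import Pool.Agent.Helper81.LK.M_TAN
import Pool.Agent.Helper39.LK.M_MOS
import Pool.Agent.Helper51.LK.M_SIG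
import Pool.Agent.Helper12.LK.M_ASM
import Pool.Agent.Helper52.LK.M_KA
import Pool.Agent.Helper64.LK.M_KB
import Pool.Agent.Helper78.LK.M_KC
import Pool.Agent.Helper69.LK.M_NIS
import Pool.Agent.Helper6.LK.M_YNG
import Pool.Agent.Helper94.LK.M_APX
import Pool.Agent.Helper17.LK.M_PTW
import Pool.Agent.Helper11.LK.M_EXT
import Pool.Agent.Helper14.LK.M_CRI

/-!
MP_58b586_gt, Q1 (local Lagrangian knots): a gap theorem.  For every `n ≥ 2` there is `ε > 0` such that
every smooth Lagrangian immersion of `ℝⁿ` in `ℝ²ⁿ`, standard at infinity, which is `ε`-nearly a similarity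
on every ball (at every scale), has as its image the image of `ℝⁿ × 0` under a compactly supported
Hamiltonian isotopy.
-/

set_option autoImplicit false

open Pool.Agent.Helper14.LK
open scoped ContDiff

namespace Pool.Agent.Results.MP_58b586_gt.NearSimilarityGap

/-- For every `n ≥ 2` there is `ε > 0` such that every smooth isotropic immersion `ι : ℝⁿ → ℝ²ⁿ` which is
standard at infinity and `ε`-nearly a similarity on every ball is Hamiltonian unknotted: a compactly
supported Hamiltonian isotopy carries `ℝⁿ × 0` onto the image of `ι`. -/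
theorem result : ∀ n : ℕ, 2 ≤ n → ∃ ε : ℝ, 0 < ε ∧ ∀ ι : EE n → WW n, ContDiff ℝ ∞ ι →
    Immersive ι → Isotropic ι → StdInfty ι → NearSim ε ι → HamIsotopic (Plane n) (Set.range ι) := by
  have hPAR := Pool.Agent.Helper48.LK.hPAR
  have hNEM := Pool.Agent.Helper57.LK.hNEM
  have hFLB := Pool.Agent.Helper14.LK.hFLB hNEM
  have hFLO := Pool.Agent.Helper89.LK.hFLO hFLB
  have hPO0 := Pool.Agent.Helper27.LK.hPO0 hPAR
  have hPOI := Pool.Agent.Helper79.LK.hPOI hPO0
  have hHAM := Pool.Agent.Helper9.LK.hHAM hPOI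
  have hTAN := Pool.Agent.Helper81.LK.hTAN hFLO
  have hASM := Pool.Agent.Helper12.LK.hASM hFLO hPOI Pool.Agent.Helper98.LK.hBIJ
    Pool.Agent.Helper39.LK.hMOS Pool.Agent.Helper51.LK.hSIG Pool.Agent.Helper42.LK.hVEF hHAM hTAN
  have hKA := Pool.Agent.Helper52.LK.hKA hPAR
  have hKC := Pool.Agent.Helper78.LK.hKC hKA Pool.Agent.Helper64.LK.hKB
  have hAPX := Pool.Agent.Helper94.LK.hAPX hPO0 Pool.Agent.Helper69.LK.hNIS
    Pool.Agent.Helper6.LK.hYNG
  have hPTW := Pool.Agent.Helper17.LK.hPTW hKC hAPX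
  have hEXT := Pool.Agent.Helper11.LK.hEXT hKC hPTW
  exact Pool.Agent.Helper14.LK.hGAP hASM hEXT

end Pool.Agent.Results.MP_58b586_gt.NearSimilarityGap
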